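import Mathlib
import Pool.Agent.Helper549.Tri.SqDefs
import Pool.Agent.Helper549.Tri.Defs
import Pool.Agent.Helper549.Tri.Setup
import Pool.Agent.TH387.Base
set_option autoImplicit false
noncomputable section
open scoped BigOperators

namespace Pool.Agent.TH387
open Pool.Agent.Helper549.Tri

namespace J41

open Pool.Agent.Helper549.Tri.Setup

theorem affInd_of_dd (v : Fin 3 → ℂ) (hv : dd v ≠ 0) : AffineIndependent ℝ v := by
  rw [affineIndependent_iff]
  intro s w hw hs
  -- extend the weights by zero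
  let w' : Fin 3 → ℝ := fun i => if i ∈ s then w i else 0
  have h1 : ∑ i, w' i = 0 := by
    rw [← hw]
    simp only [w']
    rw [Finset.sum_ite_mem]
    simp
  have h2 : ∑ i, w' i • v i = 0 := by
    rw [← hs]
    simp only [w', ite_smul, zero_smul]
    rw [Finset.sum_ite_mem]
    simp
  rw [Fin.sum_univ_three] at h1 h2
  have hre := congrArg Complex.re h2
  have him := congrArg Complex.im h2
  simp only [Complex.add_re, Complex.add_im, Complex.real_smul, Complex.mul_re, Complex.mul_im,
    Complex.ofReal_re, Complex.ofReal_im, Complex.zero_re, Complex.zero_im] at hre him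
  have hdd : dd v = ((v 1).re - (v 0).re) * ((v 2).im - (v 0).im) -
      ((v 1).im - (v 0).im) * ((v 2).re - (v 0).re) := by
    simp [dd, cr]
  rw [hdd] at hv
  have e0 : w' 0 = -(w' 1) - w' 2 := by linarith
  have k1 : w' 1 = 0 := by
    have : w' 1 * (((v 1).re - (v 0).re) * ((v 2).im - (v 0).im) -
      ((v 1).im - (v 0).im) * ((v 2).re - (v 0).re)) = 0 := by
      rw [e0] at hre him
      linear_combination ((v 2).im - (v 0).im) * hre - ((v 2).re - (v 0).re) * him
    rcases mul_eq_zero.1 this with h | h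
    · exact h
    · exact absurd h hv
  have k2 : w' 2 = 0 := by
    have : w' 2 * (((v 1).re - (v 0).re) * ((v 2).im - (v 0).im) -
      ((v 1).im - (v 0).im) * ((v 2).re - (v 0).re)) = 0 := by
      rw [e0] at hre him
      linear_combination ((v 1).re - (v 0).re) * him - ((v 1).im - (v 0).im) * hre
    rcases mul_eq_zero.1 this with h | h
    · exact h
    · exact absurd h hv
  have k0 : w' 0 = 0 := by rw [e0, k1, k2]; ring
  intro i hi
  have : w' i = w i := by simp [w', hi]
  rw [← this]
  fin_cases i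
  · exact k0
  · exact k1
  · exact k2

/-- Two triangles with the same side lengths are congruent. -/
theorem exists_iso {E F : Type*} [NormedAddCommGroup E] [InnerProductSpace ℝ E]
    [NormedAddCommGroup F] [InnerProductSpace ℝ F] [FiniteDimensional ℝ E]
    [FiniteDimensional ℝ F] (hE : Module.finrank ℝ E = 2) (hF : Module.finrank ℝ F = 2)
    (P : Fin 3 → E) (Q : Fin 3 → F) (hP : AffineIndependent ℝ P)
    (h : ∀ k l, dist (P k) (P l) = dist (Q k) (Q l)) :
    ∃ f : E ≃ᵢ F, ∀ k, f (P k) = Q k := by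
  have h1 := (affineIndependent_iff_linearIndependent_vsub ℝ P 0).1 hP
  have h2 : LinearIndependent ℝ (fun i : Fin 2 => P i.succ - P 0) := by
    have := h1.comp (fun i : Fin 2 => (⟨i.succ, Fin.succ_ne_zero i⟩ : {x : Fin 3 // x ≠ 0}))
      (fun i j hij => by
        have := congrArg Subtype.val hij
        exact Fin.succ_injective _ this)
    exact this
  let b : Module.Basis (Fin 2) ℝ E :=
    basisOfLinearIndependentOfCardEqFinrank h2 (by simp [hE])
  have hb : ∀ i, b i = P i.succ - P 0 := fun i => by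
    simp [b]
  let L : E →ₗ[ℝ] F := b.constr ℝ (fun i => Q i.succ - Q 0)
  have hL : ∀ i : Fin 2, L (P i.succ - P 0) = Q i.succ - Q 0 := fun i => by
    rw [← hb]; exact b.constr_basis ℝ _ i
  have hn : ∀ k l, ‖P k - P l‖ = ‖Q k - Q l‖ := fun k l => by
    rw [← dist_eq_norm, ← dist_eq_norm]; exact h k l
  have hin : (innerₗ F).compl₁₂ L L = innerₗ E := by
    refine b.ext fun i => b.ext fun j => ?_
    simp only [LinearMap.compl₁₂_apply, innerₗ_apply_apply]
    rw [hb, hb, hL, hL, real_inner_eq_norm_mul_self_add_norm_mul_self_sub_norm_sub_mul_self_div_two,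
      real_inner_eq_norm_mul_self_add_norm_mul_self_sub_norm_sub_mul_self_div_two,
      sub_sub_sub_cancel_right, sub_sub_sub_cancel_right, hn, hn, hn]
  let L' : E →ₗᵢ[ℝ] F := L.isometryOfInner fun x y => by
    have := congrArg (fun B => B x y) hin
    simpa using this
  let L'' : E ≃ₗᵢ[ℝ] F := L'.toLinearIsometryEquiv (hE.trans hF.symm)
  refine ⟨((IsometryEquiv.subRight (P 0)).trans L''.toIsometryEquiv).trans
    (IsometryEquiv.addRight (Q 0)), fun k => ?_⟩
  show L (P k - P 0) + Q 0 = Q k
  rcases Fin.eq_zero_or_eq_succ k with rfl | ⟨i, rfl⟩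
  · simp
  · rw [hL]; simp

theorem image_hull {E F : Type*} [NormedAddCommGroup E] [InnerProductSpace ℝ E]
    [NormedAddCommGroup F] [InnerProductSpace ℝ F] (f : E ≃ᵢ F) (P : Fin 3 → E) :
    f '' convexHull ℝ (Set.range P) = convexHull ℝ (Set.range (fun k => f (P k))) := by
  have h1 := f.toRealAffineIsometryEquiv.toAffineEquiv.toAffineMap.image_convexHull
    (Set.range P)
  have h2 : Set.range (fun k => f (P k)) = f '' Set.range P := by
    rw [← Set.range_comp]
    rfl
  rw [h2]
  exact h1

theorem range_perm {E : Type*} (Q : Fin 3 → E) (σ : Equiv.Perm (Fin 3)) :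
    Set.range (fun k => Q (σ k)) = Set.range Q := by
  ext x
  constructor
  · rintro ⟨k, rfl⟩; exact ⟨σ k, rfl⟩
  · rintro ⟨k, rfl⟩; exact ⟨σ.symm k, by simp⟩

/-- from the side lengths to all distances -/
theorem dist_of_side {E F : Type*} [PseudoMetricSpace E] [PseudoMetricSpace F] (P : Fin 3 → E)
    (Q : Fin 3 → F) (σ : Equiv.Perm (Fin 3))
    (h : ∀ k, dist (P (k + 1)) (P (k + 2)) = dist (Q (σ k + 1)) (Q (σ k + 2))) (k l : Fin 3) :
    dist (P k) (P l) = dist (Q (σ k)) (Q (σ l)) := by
  have key : ∀ m, dist (P (m + 1)) (P (m + 2)) = dist (Q (σ (m + 1))) (Q (σ (m + 2))) := by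
    intro m
    rw [h m]
    rcases perm3 σ m with ⟨h1, h2⟩ | ⟨h1, h2⟩
    · rw [h1, h2]
    · rw [h1, h2, dist_comm]
  rcases eq_or_ne k l with rfl | hkl
  · simp
  · have : ∃ m : Fin 3, (k = m + 1 ∧ l = m + 2) ∨ (k = m + 2 ∧ l = m + 1) := by
      revert k l; decide
    obtain ⟨m, ⟨rfl, rfl⟩ | ⟨rfl, rfl⟩⟩ := this
    · exact key m
    · rw [dist_comm, key m, dist_comm]

end J41

/-- TARGET: from a dissection in the complex plane of a triangle with the side lengths of `A` into
congruent triangles back to `CanCut` -/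
theorem canCut_of_dis {N : ℕ} (A : Fin 3 → EuclideanSpace ℝ (Fin 2)) (T : Fin 3 → ℂ)
    (t : Fin N → Fin 3 → ℂ) (h : Dis N T t) (ℓ : Fin 3 → ℝ)
    (hlen : ∀ i, ∃ σ : Equiv.Perm (Fin 3), ∀ k, len (t i) k = ℓ (σ k))
    (hT : ∃ σ : Equiv.Perm (Fin 3), ∀ k, len T k = side A (σ k)) : CanCut A N := by
  have hC : Module.finrank ℝ ℂ = 2 := Complex.finrank_real_complex
  have hE : Module.finrank ℝ (EuclideanSpace ℝ (Fin 2)) = 2 := by simp
  have hlend : ∀ (v : Fin 3 → ℂ) k, len v k = dist (v (k + 1)) (v (k + 2)) := fun v k => by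
    rw [dist_comm, dist_eq_norm]; rfl
  obtain ⟨σ, hσ⟩ := hT
  obtain ⟨F, hF⟩ := J41.exists_iso hC hE T (fun k => A (σ k))
    (J41.affInd_of_dd T h.ccwT.ne') (J41.dist_of_side T A σ fun k => by
      rw [← hlend, hσ]; rfl)
  have himg : ∀ v : Fin 3 → ℂ, TriSet (fun k => F (v k)) = F '' hull v := fun v =>
    (J41.image_hull F v).symm
  have hint : ∀ S : Set ℂ, interior (F '' S) = F '' interior S :=
    fun S => (F.toHomeomorph.image_interior S).symm
  refine ⟨fun i k => F (t i k), fun i => ?_, fun i j => ?_, ?_, fun i j hij => ?_⟩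
  · exact (J41.affInd_of_dd (t i) (h.ccwt i).ne').map'
      F.toRealAffineIsometryEquiv.toAffineEquiv.toAffineMap F.injective
  · obtain ⟨σi, hi⟩ := hlen i
    obtain ⟨σj, hj⟩ := hlen j
    obtain ⟨G, hG⟩ := J41.exists_iso hC hC (t i) (fun k => t j ((σi.trans σj.symm) k))
      (J41.affInd_of_dd (t i) (h.ccwt i).ne') (J41.dist_of_side (t i) (t j) _ fun k => by
        rw [← hlend, ← hlend, hi, hj]
        simp)
    refine ⟨(F.symm.trans G).trans F, ?_⟩
    rw [himg, himg]
    have e1 : G '' hull (t i) = hull (t j) := by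
      have := J41.image_hull G (t i)
      unfold hull
      rw [this]
      congr 1
      rw [← J41.range_perm (t j) (σi.trans σj.symm)]
      congr 1
      funext k
      exact hG k
    rw [← e1]
    ext x
    simp only [Set.mem_image]
    constructor
    · rintro ⟨_, ⟨z, hz, rfl⟩, rfl⟩
      exact ⟨G z, ⟨z, hz, rfl⟩, by simp⟩
    · rintro ⟨_, ⟨z, hz, rfl⟩, rfl⟩
      exact ⟨F z, ⟨z, hz, rfl⟩, by simp⟩
  · have e2 : TriSet A = F '' hull T := by
      rw [← himg]
      unfold TriSet
      congr 1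
      rw [← J41.range_perm A σ]
      congr 1
      funext k
      exact (hF k).symm
    rw [e2, ← h.cover, Set.image_iUnion]
    exact Set.iUnion_congr fun i => himg (t i)
  · simp only [himg, hint]
    exact (Set.disjoint_image_iff F.injective).2 (h.disj i j hij)

end Pool.Agent.TH387
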