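import Mathlib

/-!
Every finite colouring of `ω × ω × ω₁` has an infinite box with at most two colours.
-/

set_option autoImplicit false

open Filter Set

namespace TH39.TwoCol

universe u v

/-- the limit of a function with finitely many values along the hyperfilter -/
theorem exists_lim {F : Type v} [Finite F] (f : ℕ → F) :
    ∃ x, ∀ᶠ n in (hyperfilter ℕ : Filter ℕ), f n = x := by
  have h : (⋃ x ∈ (univ : Set F), {n | f n = x}) ∈ hyperfilter ℕ := by
    have : (⋃ x ∈ (univ : Set F), {n | f n = x}) = univ := by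
      ext n; simp
    rw [this]
    exact univ_mem
  rw [Ultrafilter.finite_biUnion_mem_iff finite_univ] at h
  obtain ⟨x, _, hx⟩ := h
  exact ⟨x, hx⟩

section

variable {W : Type u} [LinearOrder W] {F : Type v} [Finite F]

/-- the finite pattern of order `n` of a point -/
def pat (c : ℕ → ℕ → W → F) (r s : W → ℕ → F) (M M' : W → F) (n : ℕ) (g : W) :
    (Fin n → Fin n → F) × (Fin n → F) × (Fin n → F) × F × F :=
  (fun i k => c i k g, fun i => r g i, fun i => s g i, M g, M' g)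

omit [LinearOrder W] in
theorem exists_star (hW : ¬ Countable W) (c : ℕ → ℕ → W → F) (r s : W → ℕ → F) (M M' : W → F) :
    ∃ g₀ : W, ∀ n, ¬ {g | pat c r s M M' n g = pat c r s M M' n g₀}.Countable := by
  by_contra hcon
  push Not at hcon
  apply hW
  rw [← Set.countable_univ_iff]
  have hsub : (univ : Set W) ⊆ ⋃ n : ℕ, ⋃ x ∈ {x | {g | pat c r s M M' n g = x}.Countable},
      {g | pat c r s M M' n g = x} := by
    intro g _
    obtain ⟨n, hn⟩ := hcon g
    rw [mem_iUnion]
    refine ⟨n, ?_⟩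
    rw [mem_iUnion₂]
    exact ⟨pat c r s M M' n g, hn, rfl⟩
  refine Set.Countable.mono hsub (Set.countable_iUnion fun n => ?_)
  exact Set.Countable.biUnion (Set.toFinite _).countable (fun x hx => hx)

/-- the invariant of the construction -/
def Inv (c : ℕ → ℕ → W → F) (r s : W → ℕ → F) (M M' : W → F) (g₀ : W)
    (x : Finset ℕ × Finset ℕ × Finset W) : Prop :=
  g₀ ∈ x.2.2 ∧ ∀ g ∈ x.2.2, M g = M g₀ ∧ M' g = M' g₀ ∧ (∀ a ∈ x.1, r g a = M g₀) ∧
    (∀ b ∈ x.2.1, s g b = M' g₀) ∧ ∀ a ∈ x.1, ∀ b ∈ x.2.1, c a b g = M g₀ ∨ c a b g = M' g₀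

theorem step (hseg : ∀ z : W, (Set.Iic z).Countable) (c : ℕ → ℕ → W → F)
    (r s : W → ℕ → F) (M M' : W → F)
    (hr : ∀ g a, ∀ᶠ b in (hyperfilter ℕ : Filter ℕ), c a b g = r g a)
    (hs : ∀ g b, ∀ᶠ a in (hyperfilter ℕ : Filter ℕ), c a b g = s g b)
    (hM : ∀ g, ∀ᶠ a in (hyperfilter ℕ : Filter ℕ), r g a = M g)
    (hM' : ∀ g, ∀ᶠ b in (hyperfilter ℕ : Filter ℕ), s g b = M' g)
    (g₀ : W) (hg₀ : ∀ n, ¬ {g | pat c r s M M' n g = pat c r s M M' n g₀}.Countable)
    (x : Finset ℕ × Finset ℕ × Finset W) (hx : Inv c r s M M' g₀ x) :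
    ∃ (a b : ℕ) (g : W), (∀ y ∈ x.1, y < a) ∧ (∀ y ∈ x.2.1, y < b) ∧ (∀ y ∈ x.2.2, y < g) ∧
      Inv c r s M M' g₀ (insert a x.1, insert b x.2.1, insert g x.2.2) := by
  obtain ⟨A, B, C⟩ := x
  obtain ⟨h0, hx⟩ := hx
  simp only at h0 hx ⊢
  -- choose a
  have e1 : ∀ᶠ a in (hyperfilter ℕ : Filter ℕ), (∀ y ∈ A, y < a) ∧ (∀ g ∈ C, r g a = M g) ∧
      ∀ g ∈ C, ∀ b ∈ B, c a b g = s g b := by
    refine ((Filter.eventually_all_finset A).2 fun y _ => ?_).and
      (((Filter.eventually_all_finset C).2 fun g _ => hM g).and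
        ((Filter.eventually_all_finset C).2 fun g _ =>
          (Filter.eventually_all_finset B).2 fun b _ => hs g b))
    exact Nat.hyperfilter_le_atTop (eventually_gt_atTop y)
  obtain ⟨a, ha1, ha2, ha3⟩ := e1.exists
  -- choose b
  have e2 : ∀ᶠ b in (hyperfilter ℕ : Filter ℕ), (∀ y ∈ B, y < b) ∧ (∀ g ∈ C, s g b = M' g) ∧
      ∀ g ∈ C, ∀ a' ∈ insert a A, c a' b g = r g a' := by
    refine ((Filter.eventually_all_finset B).2 fun y _ => ?_).and
      (((Filter.eventually_all_finset C).2 fun g _ => hM' g).and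
        ((Filter.eventually_all_finset C).2 fun g _ =>
          (Filter.eventually_all_finset (insert a A)).2 fun a' _ => hr g a'))
    exact Nat.hyperfilter_le_atTop (eventually_gt_atTop y)
  obtain ⟨b, hb1, hb2, hb3⟩ := e2.exists
  -- invariant for the old points
  have key : ∀ g ∈ C, M g = M g₀ ∧ M' g = M' g₀ ∧ (∀ a' ∈ insert a A, r g a' = M g₀) ∧
      (∀ b' ∈ insert b B, s g b' = M' g₀) ∧
      ∀ a' ∈ insert a A, ∀ b' ∈ insert b B, c a' b' g = M g₀ ∨ c a' b' g = M' g₀ := by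
    intro g hg
    obtain ⟨k1, k2, k3, k4, k5⟩ := hx g hg
    have k3' : ∀ a' ∈ insert a A, r g a' = M g₀ := by
      intro a' ha'
      rcases Finset.mem_insert.1 ha' with rfl | h
      · rw [ha2 g hg, k1]
      · exact k3 a' h
    have k4' : ∀ b' ∈ insert b B, s g b' = M' g₀ := by
      intro b' hb'
      rcases Finset.mem_insert.1 hb' with rfl | h
      · rw [hb2 g hg, k2]
      · exact k4 b' h
    refine ⟨k1, k2, k3', k4', ?_⟩
    intro a' ha' b' hb'
    rcases Finset.mem_insert.1 hb' with rfl | h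
    · left
      rw [hb3 g hg a' ha', k3' a' ha']
    · rcases Finset.mem_insert.1 ha' with rfl | h'
      · right
        rw [ha3 g hg b' h, k4 b' h]
      · exact k5 a' h' b' h
  -- choose g
  obtain ⟨N, hN⟩ : ∃ N : ℕ, ∀ y ∈ insert a A ∪ insert b B, y < N :=
    ⟨(insert a A ∪ insert b B).sup id + 1, fun y hy => Nat.lt_succ_of_le (Finset.le_sup (f := id) hy)⟩
  have hcnt : (⋃ y ∈ C, Set.Iic y).Countable :=
    Set.Countable.biUnion C.countable_toSet fun y _ => hseg y
  obtain ⟨g, hg1, hg2⟩ : ∃ g, pat c r s M M' N g = pat c r s M M' N g₀ ∧ g ∉ ⋃ y ∈ C, Set.Iic y := by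
    by_contra hcon
    push Not at hcon
    exact hg₀ N (hcnt.mono fun g hg => hcon g hg)
  have hg3 : ∀ y ∈ C, y < g := by
    intro y hy
    by_contra h
    apply hg2
    rw [mem_iUnion₂]
    exact ⟨y, hy, not_lt.1 h⟩
  unfold pat at hg1
  simp only [Prod.mk.injEq] at hg1
  obtain ⟨p1, p2, p3, p4, p5⟩ := hg1
  refine ⟨a, b, g, ha1, hb1, hg3, Finset.mem_insert_of_mem h0, ?_⟩
  intro g' hg'
  rcases Finset.mem_insert.1 hg' with rfl | h
  · obtain ⟨k1, k2, k3, k4, k5⟩ := key g₀ h0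
    refine ⟨p4, p5, ?_, ?_, ?_⟩
    · intro a' ha'
      have hlt := hN a' (Finset.mem_union_left _ ha')
      have := congrFun p2 ⟨a', hlt⟩
      simp only at this
      rw [this, k3 a' ha']
    · intro b' hb'
      have hlt := hN b' (Finset.mem_union_right _ hb')
      have := congrFun p3 ⟨b', hlt⟩
      simp only at this
      rw [this, k4 b' hb']
    · intro a' ha' b' hb'
      have hlt := hN a' (Finset.mem_union_left _ ha')
      have hlt' := hN b' (Finset.mem_union_right _ hb')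
      have := congrFun (congrFun p1 ⟨a', hlt⟩) ⟨b', hlt'⟩
      simp only at this
      rw [this]
      exact k5 a' ha' b' hb'
  · exact key g' h

/-- Every finite colouring of `ω × ω × W`, where `W` is an uncountable linear order with countable
initial segments, has a box with sides of order type `ω` which receives at most two colours. -/
theorem main (hW : ¬ Countable W) (hseg : ∀ z : W, (Set.Iic z).Countable) (c : ℕ → ℕ → W → F) :
    ∃ (a b : ℕ → ℕ) (g : ℕ → W), StrictMono a ∧ StrictMono b ∧ StrictMono g ∧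
      ∃ p q : F, ∀ i k j, c (a i) (b k) (g j) = p ∨ c (a i) (b k) (g j) = q := by
  have hr' : ∀ (g : W) (a : ℕ), ∃ x, ∀ᶠ b in (hyperfilter ℕ : Filter ℕ), c a b g = x :=
    fun g a => exists_lim _
  have hs' : ∀ (g : W) (b : ℕ), ∃ x, ∀ᶠ a in (hyperfilter ℕ : Filter ℕ), c a b g = x :=
    fun g b => exists_lim _
  choose r hr using hr'
  choose s hs using hs'
  have hM1 : ∀ g : W, ∃ x, ∀ᶠ a in (hyperfilter ℕ : Filter ℕ), r g a = x := fun g => exists_lim _
  have hM2 : ∀ g : W, ∃ x, ∀ᶠ b in (hyperfilter ℕ : Filter ℕ), s g b = x := fun g => exists_lim _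
  choose M hM using hM1
  choose M' hM' using hM2
  obtain ⟨g₀, hg₀⟩ := exists_star hW c r s M M'
  let St := {x : Finset ℕ × Finset ℕ × Finset W // Inv c r s M M' g₀ x}
  have hstep : ∀ x : St, ∃ y : ℕ × ℕ × W, (∀ z ∈ x.1.1, z < y.1) ∧ (∀ z ∈ x.1.2.1, z < y.2.1) ∧
      (∀ z ∈ x.1.2.2, z < y.2.2) ∧
      Inv c r s M M' g₀ (insert y.1 x.1.1, insert y.2.1 x.1.2.1, insert y.2.2 x.1.2.2) := by
    intro x
    obtain ⟨a, b, g, h1, h2, h3, h4⟩ := step hseg c r s M M' hr hs hM hM' g₀ hg₀ x.1 x.2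
    exact ⟨(a, b, g), h1, h2, h3, h4⟩
  choose nx hnx using hstep
  let x₀ : St := ⟨(∅, ∅, {g₀}), by
    refine ⟨Finset.mem_singleton_self _, ?_⟩
    intro g hg
    rw [Finset.mem_singleton] at hg
    subst hg
    exact ⟨rfl, rfl, by simp, by simp, by simp⟩⟩
  let S : ℕ → St := fun n => Nat.rec x₀ (fun _ x => ⟨(insert (nx x).1 x.1.1,
    insert (nx x).2.1 x.1.2.1, insert (nx x).2.2 x.1.2.2), (hnx x).2.2.2⟩) n
  have hS1 : ∀ n, (S (n + 1)).1.1 = insert (nx (S n)).1 (S n).1.1 := fun n => rfl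
  have hS2 : ∀ n, (S (n + 1)).1.2.1 = insert (nx (S n)).2.1 (S n).1.2.1 := fun n => rfl
  have hS3 : ∀ n, (S (n + 1)).1.2.2 = insert (nx (S n)).2.2 (S n).1.2.2 := fun n => rfl
  have m1 : ∀ n m, n < m → (nx (S n)).1 ∈ (S m).1.1 := by
    intro n m hnm
    induction m with
    | zero => omega
    | succ m ih =>
      rw [hS1]
      rcases Nat.lt_succ_iff_lt_or_eq.1 hnm with h | h
      · exact Finset.mem_insert_of_mem (ih h)
      · subst h; exact Finset.mem_insert_self _ _
  have m2 : ∀ n m, n < m → (nx (S n)).2.1 ∈ (S m).1.2.1 := by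
    intro n m hnm
    induction m with
    | zero => omega
    | succ m ih =>
      rw [hS2]
      rcases Nat.lt_succ_iff_lt_or_eq.1 hnm with h | h
      · exact Finset.mem_insert_of_mem (ih h)
      · subst h; exact Finset.mem_insert_self _ _
  have m3 : ∀ n m, n < m → (nx (S n)).2.2 ∈ (S m).1.2.2 := by
    intro n m hnm
    induction m with
    | zero => omega
    | succ m ih =>
      rw [hS3]
      rcases Nat.lt_succ_iff_lt_or_eq.1 hnm with h | h
      · exact Finset.mem_insert_of_mem (ih h)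
      · subst h; exact Finset.mem_insert_self _ _
  refine ⟨fun n => (nx (S n)).1, fun n => (nx (S n)).2.1, fun n => (nx (S n)).2.2,
    fun n m h => (hnx (S m)).1 _ (m1 n m h), fun n m h => (hnx (S m)).2.1 _ (m2 n m h),
    fun n m h => (hnx (S m)).2.2.1 _ (m3 n m h), M g₀, M' g₀, ?_⟩
  intro i k j
  let m := max i (max k j) + 1
  have hi : i < m := by simp only [m]; omega
  have hk : k < m := by simp only [m]; omega
  have hj : j < m := by simp only [m]; omega
  exact ((S m).2.2 _ (m3 j m hj)).2.2.2.2 _ (m1 i m hi) _ (m2 k m hk)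

end

end TH39.TwoCol
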