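import Pool.Agent.TH672.ArDefs

/-!
# Arithmetical predicates are closed under the logical operations, terms and rules
-/

set_option autoImplicit false

namespace Pool.Agent.TH672
open Form

namespace ArAux

/-! ### Truth of the defined connectives -/

theorem holds_neg (φ : Form) (v : ℕ → ℕ) : φ.neg.Holds v ↔ ¬ φ.Holds v := Iff.rfl

theorem holds_and (φ ψ : Form) (v : ℕ → ℕ) : (φ.and ψ).Holds v ↔ φ.Holds v ∧ ψ.Holds v := by
  show ((φ.Holds v → ψ.Holds v → False) → False) ↔ _
  tauto

theorem holds_or (φ ψ : Form) (v : ℕ → ℕ) : (φ.or ψ).Holds v ↔ φ.Holds v ∨ ψ.Holds v := by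
  show ((φ.Holds v → False) → ψ.Holds v) ↔ _
  tauto

theorem holds_ex (x : ℕ) (φ : Form) (v : ℕ → ℕ) :
    (ex x φ).Holds v ↔ ∃ a, φ.Holds (Function.update v x a) := by
  show ((∀ a, φ.Holds (Function.update v x a) → False) → False) ↔ _
  constructor
  · intro h
    by_contra h'
    exact h fun a ha => h' ⟨a, ha⟩
  · rintro ⟨a, ha⟩ h
    exact h a ha

/-- Truth depends only on the values of the free variables. -/
theorem coinc (φ : Form) : ∀ v w : ℕ → ℕ, (∀ x, φ.Free x → v x = w x) → (φ.Holds v ↔ φ.Holds w) := by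
  induction φ with
  | bot => intro v w _; exact Iff.rfl
  | eq x y =>
    intro v w h
    have hx := h x (Or.inl rfl)
    have hy := h y (Or.inr rfl)
    simp only [Holds, hx, hy]
  | zero x =>
    intro v w h
    have hx := h x rfl
    simp only [Holds, hx]
  | succ x y =>
    intro v w h
    have hx := h x (Or.inl rfl)
    have hy := h y (Or.inr rfl)
    simp only [Holds, hx, hy]
  | add x y z =>
    intro v w h
    have hx := h x (Or.inl rfl)
    have hy := h y (Or.inr (Or.inl rfl))
    have hz := h z (Or.inr (Or.inr rfl))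
    simp only [Holds, hx, hy, hz]
  | mul x y z =>
    intro v w h
    have hx := h x (Or.inl rfl)
    have hy := h y (Or.inr (Or.inl rfl))
    have hz := h z (Or.inr (Or.inr rfl))
    simp only [Holds, hx, hy, hz]
  | imp φ ψ ihφ ihψ =>
    intro v w h
    have h1 := ihφ v w fun x hx => h x (Or.inl hx)
    have h2 := ihψ v w fun x hx => h x (Or.inr hx)
    simp only [Holds, h1, h2]
  | all x φ ih =>
    intro v w h
    refine forall_congr' fun a => ih _ _ fun u hu => ?_
    by_cases hux : u = x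
    · subst hux; simp
    · rw [Function.update_of_ne hux, Function.update_of_ne hux]
      exact h u ⟨hux, hu⟩

/-- The free variables are bounded. -/
theorem free_bdd (φ : Form) : ∃ N, ∀ x, φ.Free x → x < N := by
  induction φ with
  | bot => exact ⟨0, fun x h => h.elim⟩
  | eq x y => exact ⟨x + y + 1, fun u h => by simp only [Free] at h; omega⟩
  | zero x => exact ⟨x + 1, fun u h => by simp only [Free] at h; omega⟩
  | succ x y => exact ⟨x + y + 1, fun u h => by simp only [Free] at h; omega⟩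
  | add x y z => exact ⟨x + y + z + 1, fun u h => by simp only [Free] at h; omega⟩
  | mul x y z => exact ⟨x + y + z + 1, fun u h => by simp only [Free] at h; omega⟩
  | imp φ ψ ihφ ihψ =>
    obtain ⟨N, hN⟩ := ihφ
    obtain ⟨M, hM⟩ := ihψ
    refine ⟨N + M, fun u h => ?_⟩
    rcases h with h | h
    · have := hN u h; omega
    · have := hM u h; omega
  | all x φ ih =>
    obtain ⟨N, hN⟩ := ih
    exact ⟨N, fun u h => hN u h.2⟩

/-- Renaming of free variables. -/
theorem exists_ren (φ : Form) : ∀ f : ℕ → ℕ, ∃ φ' : Form,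
    (∀ v, φ'.Holds v ↔ φ.Holds (fun i => v (f i))) ∧
      ∀ x, φ'.Free x → ∃ u, φ.Free u ∧ x = f u := by
  induction φ with
  | bot => exact fun f => ⟨bot, fun v => Iff.rfl, fun x h => h.elim⟩
  | eq x y =>
    refine fun f => ⟨eq (f x) (f y), fun v => Iff.rfl, fun u h => ?_⟩
    rcases h with h | h
    · exact ⟨x, Or.inl rfl, h⟩
    · exact ⟨y, Or.inr rfl, h⟩
  | zero x =>
    exact fun f => ⟨zero (f x), fun v => Iff.rfl, fun u h => ⟨x, rfl, h⟩⟩
  | succ x y =>
    refine fun f => ⟨succ (f x) (f y), fun v => Iff.rfl, fun u h => ?_⟩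
    rcases h with h | h
    · exact ⟨x, Or.inl rfl, h⟩
    · exact ⟨y, Or.inr rfl, h⟩
  | add x y z =>
    refine fun f => ⟨add (f x) (f y) (f z), fun v => Iff.rfl, fun u h => ?_⟩
    rcases h with h | h | h
    · exact ⟨x, Or.inl rfl, h⟩
    · exact ⟨y, Or.inr (Or.inl rfl), h⟩
    · exact ⟨z, Or.inr (Or.inr rfl), h⟩
  | mul x y z =>
    refine fun f => ⟨mul (f x) (f y) (f z), fun v => Iff.rfl, fun u h => ?_⟩
    rcases h with h | h | h
    · exact ⟨x, Or.inl rfl, h⟩
    · exact ⟨y, Or.inr (Or.inl rfl), h⟩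
    · exact ⟨z, Or.inr (Or.inr rfl), h⟩
  | imp φ ψ ihφ ihψ =>
    intro f
    obtain ⟨φ', h1, h2⟩ := ihφ f
    obtain ⟨ψ', h3, h4⟩ := ihψ f
    refine ⟨imp φ' ψ', fun v => imp_congr (h1 v) (h3 v), fun x h => ?_⟩
    rcases h with h | h
    · obtain ⟨u, hu, e⟩ := h2 x h
      exact ⟨u, Or.inl hu, e⟩
    · obtain ⟨u, hu, e⟩ := h4 x h
      exact ⟨u, Or.inr hu, e⟩
  | all x φ ih =>
    intro f
    obtain ⟨N, hN⟩ := free_bdd φ
    -- a fresh variable
    let y := (Finset.range N).sup f + 1
    have hy : ∀ u, φ.Free u → f u < y := fun u hu =>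
      Nat.lt_succ_of_le (Finset.le_sup (Finset.mem_range.2 (hN u hu)))
    obtain ⟨φ', h1, h2⟩ := ih (Function.update f x y)
    refine ⟨all y φ', fun v => forall_congr' fun a => (h1 _).trans (coinc φ _ _ fun u hu => ?_),
      fun z h => ?_⟩
    · by_cases hux : u = x
      · subst hux; simp
      · rw [Function.update_of_ne hux, Function.update_of_ne hux,
          Function.update_of_ne (Nat.ne_of_lt (hy u hu))]
    · obtain ⟨hz, h⟩ := h
      obtain ⟨u, hu, e⟩ := h2 z h
      by_cases hux : u = x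
      · subst hux
        simp at e
        exact absurd e hz
      · rw [Function.update_of_ne hux] at e
        exact ⟨u, ⟨hux, hu⟩, e⟩

end ArAux

/-! ### Closure properties -/

theorem Ar.congr {R R' : (ℕ → ℕ) → Prop} (h : Ar R) (e : ∀ v, R v ↔ R' v) : Ar R' := by
  obtain ⟨φ, hφ⟩ := h
  exact ⟨φ, fun v => (hφ v).trans (e v)⟩

theorem Ar.eq (x y : ℕ) : Ar (fun v => v x = v y) := ⟨.eq x y, fun _ => Iff.rfl⟩

theorem Ar.not {R : (ℕ → ℕ) → Prop} (h : Ar R) : Ar (fun v => ¬ R v) := by
  obtain ⟨φ, hφ⟩ := h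
  exact ⟨φ.neg, fun v => (ArAux.holds_neg φ v).trans (not_congr (hφ v))⟩

theorem Ar.and {R R' : (ℕ → ℕ) → Prop} (h : Ar R) (h' : Ar R') : Ar (fun v => R v ∧ R' v) := by
  obtain ⟨φ, hφ⟩ := h
  obtain ⟨ψ, hψ⟩ := h'
  exact ⟨φ.and ψ, fun v => (ArAux.holds_and φ ψ v).trans (and_congr (hφ v) (hψ v))⟩

theorem Ar.or {R R' : (ℕ → ℕ) → Prop} (h : Ar R) (h' : Ar R') : Ar (fun v => R v ∨ R' v) := by
  obtain ⟨φ, hφ⟩ := h
  obtain ⟨ψ, hψ⟩ := h'
  exact ⟨φ.or ψ, fun v => (ArAux.holds_or φ ψ v).trans (or_congr (hφ v) (hψ v))⟩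

theorem Ar.imp {R R' : (ℕ → ℕ) → Prop} (h : Ar R) (h' : Ar R') : Ar (fun v => R v → R' v) := by
  obtain ⟨φ, hφ⟩ := h
  obtain ⟨ψ, hψ⟩ := h'
  exact ⟨φ.imp ψ, fun v => imp_congr (hφ v) (hψ v)⟩

theorem Ar.ex {R : (ℕ → ℕ) → Prop} (x : ℕ) (h : Ar R) :
    Ar (fun v => ∃ a, R (Function.update v x a)) := by
  obtain ⟨φ, hφ⟩ := h
  exact ⟨.ex x φ, fun v => (ArAux.holds_ex x φ v).trans (exists_congr fun a => hφ _)⟩

theorem Ar.all {R : (ℕ → ℕ) → Prop} (x : ℕ) (h : Ar R) :
    Ar (fun v => ∀ a, R (Function.update v x a)) := by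
  obtain ⟨φ, hφ⟩ := h
  exact ⟨.all x φ, fun v => forall_congr' fun a => hφ _⟩

theorem Ar.addRel (x y z : ℕ) : Ar (fun v => v x + v y = v z) := ⟨.add x y z, fun _ => Iff.rfl⟩

theorem Ar.mulRel (x y z : ℕ) : Ar (fun v => v x * v y = v z) := ⟨.mul x y z, fun _ => Iff.rfl⟩

theorem Ar.zeroRel (x : ℕ) : Ar (fun v => v x = 0) := ⟨.zero x, fun _ => Iff.rfl⟩

theorem Ar.succRel (x y : ℕ) : Ar (fun v => v y = v x + 1) := ⟨.succ x y, fun _ => Iff.rfl⟩

theorem Ar.falso : Ar (fun _ => False) := ⟨.bot, fun _ => Iff.rfl⟩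

theorem Ar.verum : Ar (fun _ => _root_.True) := (Ar.falso.not).congr fun _ => by simp

/-- Renaming of variables. -/
theorem Ar.ren {R : (ℕ → ℕ) → Prop} (h : Ar R) (f : ℕ → ℕ) : Ar (fun v => R (fun i => v (f i))) := by
  obtain ⟨φ, hφ⟩ := h
  obtain ⟨φ', h', -⟩ := ArAux.exists_ren φ f
  exact ⟨φ', fun v => (h' v).trans (hφ _)⟩

/-- An arithmetical predicate depends on finitely many variables only. -/
theorem Ar.bdd {R : (ℕ → ℕ) → Prop} (h : Ar R) :
    ∃ N, ∀ v w : ℕ → ℕ, (∀ x < N, v x = w x) → (R v ↔ R w) := by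
  obtain ⟨φ, hφ⟩ := h
  obtain ⟨N, hN⟩ := ArAux.free_bdd φ
  exact ⟨N, fun v w e => (hφ v).symm.trans ((ArAux.coinc φ v w fun x hx => e x (hN x hx)).trans (hφ w))⟩

/-- The assignment with the first value `a`. -/
def consA (a : ℕ) (v : ℕ → ℕ) : ℕ → ℕ
  | 0 => a
  | n + 1 => v n

@[simp] theorem consA_zero (a : ℕ) (v : ℕ → ℕ) : consA a v 0 = a := rfl

@[simp] theorem consA_succ (a : ℕ) (v : ℕ → ℕ) (n : ℕ) : consA a v (n + 1) = v n := rfl

/-- Quantification over a new variable. -/
theorem Ar.exc {R : (ℕ → ℕ) → Prop} (h : Ar R) : Ar (fun v => ∃ a, R (consA a v)) := by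
  obtain ⟨N, hN⟩ := h.bdd
  refine ((h.ren (fun i => match i with
    | 0 => N
    | n + 1 => n)).ex N).congr fun v => exists_congr fun a => hN _ _ fun x hx => ?_
  cases x with
  | zero => simp
  | succ n =>
    show Function.update v N a n = v n
    rw [Function.update_of_ne (by omega)]

theorem Ar.allc {R : (ℕ → ℕ) → Prop} (h : Ar R) : Ar (fun v => ∀ a, R (consA a v)) :=
  ((h.not.exc).not).congr fun v => by simp

/-- Quantification over finitely many variables. -/
theorem Ar.exFin (K : ℕ) : ∀ {R : (ℕ → ℕ) → Prop}, Ar R →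
    Ar (fun v => ∃ ρ : ℕ → ℕ, R (fun i => if i < K then ρ i else v (i - K))) := by
  induction K with
  | zero =>
    intro R h
    refine h.congr fun v => ?_
    simp
  | succ K ih =>
    intro R h
    refine (ih h).exc.congr fun v => ?_
    constructor
    · rintro ⟨a, ρ, hρ⟩
      refine ⟨fun i => if i < K then ρ i else a, ?_⟩
      convert hρ using 1
      funext i
      by_cases hi : i < K
      · simp [hi, Nat.lt_succ_of_lt hi]
      · by_cases hi' : i = K
        · subst hi'; simp
        · have h1 : ¬ i < K + 1 := by omega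
          obtain ⟨n, hn⟩ : ∃ n, i - K = n + 1 := ⟨i - K - 1, by omega⟩
          have h2 : i - (K + 1) = n := by omega
          simp only [hi, h1, if_false, hn, h2, consA_succ]
    · rintro ⟨ρ, hρ⟩
      refine ⟨ρ K, ρ, ?_⟩
      convert hρ using 1
      funext i
      by_cases hi : i < K
      · simp [hi, Nat.lt_succ_of_lt hi]
      · by_cases hi' : i = K
        · subst hi'; simp
        · have h1 : ¬ i < K + 1 := by omega
          obtain ⟨n, hn⟩ : ∃ n, i - K = n + 1 := ⟨i - K - 1, by omega⟩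
          have h2 : i - (K + 1) = n := by omega
          simp only [hi, h1, if_false, hn, h2, consA_succ]

/-- Quantification over an assignment. -/
theorem Ar.exFun {Q : (ℕ → ℕ) → (ℕ → ℕ) → Prop}
    (h : Ar (fun w => Q (fun i => w (2 * i)) (fun i => w (2 * i + 1)))) :
    Ar (fun v => ∃ ρ, Q ρ v) := by
  obtain ⟨N, hN⟩ := h.bdd
  have h1 := (h.ren (fun i => if i % 2 = 0 then i / 2 else i / 2 + N)).exFin N
  refine h1.congr fun v => exists_congr fun ρ => ?_
  have h2 := hN (fun i => if (if i % 2 = 0 then i / 2 else i / 2 + N) < N then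
    ρ (if i % 2 = 0 then i / 2 else i / 2 + N) else
      v ((if i % 2 = 0 then i / 2 else i / 2 + N) - N))
    (fun i => if i % 2 = 0 then ρ (i / 2) else v (i / 2)) (fun x hx => by
      by_cases hx2 : x % 2 = 0
      · have : x / 2 < N := by omega
        simp [hx2, this]
      · simp [hx2])
  refine h2.trans ?_
  have e1 : (fun i => (fun i => if i % 2 = 0 then ρ (i / 2) else v (i / 2)) (2 * i)) = ρ := by
    funext i
    have : 2 * i % 2 = 0 := by omega
    have h' : 2 * i / 2 = i := by omega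
    simp [this]
  have e2 : (fun i => (fun i => if i % 2 = 0 then ρ (i / 2) else v (i / 2)) (2 * i + 1)) = v := by
    funext i
    have : ¬ (2 * i + 1) % 2 = 0 := by omega
    have h' : (2 * i + 1) / 2 = i := by omega
    simp only [this, if_false, h']
  exact iff_of_eq (congrArg₂ Q e1 e2)

/-! ### Order, pairs and terms -/

theorem Ar.le (x y : ℕ) : Ar (fun v => v x ≤ v y) := by
  refine (Ar.addRel (x + 1) 0 (y + 1)).exc.congr fun v => ?_
  simp only [consA_zero, consA_succ]
  exact ⟨fun ⟨a, h⟩ => by omega, fun h => ⟨v y - v x, by omega⟩⟩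

theorem Ar.lt (x y : ℕ) : Ar (fun v => v x < v y) :=
  (Ar.le y x).not.congr fun v => by omega

theorem Ar.pairRel (x y z : ℕ) : Ar (fun v => v z = Nat.pair (v x) (v y)) := by
  -- `x < y` and `z = y * y + x`
  have h1 : Ar (fun v => ∃ a, v y * v y = a ∧ a + v x = v z) := by
    refine ((Ar.mulRel (y + 1) (y + 1) 0).and (Ar.addRel 0 (x + 1) (z + 1))).exc
  have h2 : Ar (fun v => ∃ a, v x * v x = a ∧ ∃ b, a + v x = b ∧ b + v y = v z) := by
    refine ((Ar.mulRel (x + 1) (x + 1) 0).and
      (((Ar.addRel 1 (x + 2) 0).and (Ar.addRel 0 (y + 2) (z + 2))).exc)).exc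
  refine (((Ar.lt x y).imp h1).and ((Ar.lt x y).not.imp h2)).congr fun v => ?_
  unfold Nat.pair
  constructor
  · rintro ⟨h, h'⟩
    split_ifs with hxy
    · obtain ⟨a, ha, hb⟩ := h hxy
      rw [← hb, ha]
    · obtain ⟨a, ha, b, hb, hc⟩ := h' hxy
      rw [← hc, ← hb, ← ha]
  · intro h
    constructor
    · intro hxy
      rw [if_pos hxy] at h
      exact ⟨_, rfl, h.symm⟩
    · intro hxy
      rw [if_neg hxy] at h
      exact ⟨_, rfl, _, rfl, h.symm⟩

/-- Renaming of the variables of a term. -/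
def Tm.ren (f : ℕ → ℕ) : Tm → Tm
  | .var i => .var (f i)
  | .zero => .zero
  | .succ t => .succ (t.ren f)
  | .pair s t => .pair (s.ren f) (t.ren f)

theorem Tm.eval_ren (f : ℕ → ℕ) (v : ℕ → ℕ) (t : Tm) :
    (t.ren f).eval v = t.eval (fun i => v (f i)) := by
  induction t with
  | var i => rfl
  | zero => rfl
  | succ t ih => simp only [Tm.ren, Tm.eval, ih]
  | pair s t ihs iht => simp only [Tm.ren, Tm.eval, ihs, iht]

theorem Tm.eval_congr (t : Tm) : ∃ N, ∀ v w : ℕ → ℕ, (∀ x < N, v x = w x) → t.eval v = t.eval w := by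
  induction t with
  | var i => exact ⟨i + 1, fun v w h => h i (Nat.lt_succ_self i)⟩
  | zero => exact ⟨0, fun v w h => rfl⟩
  | succ t ih =>
    obtain ⟨N, hN⟩ := ih
    exact ⟨N, fun v w h => by simp only [Tm.eval, hN v w h]⟩
  | pair s t ihs iht =>
    obtain ⟨N, hN⟩ := ihs
    obtain ⟨M, hM⟩ := iht
    refine ⟨N + M, fun v w h => ?_⟩
    simp only [Tm.eval, hN v w fun x hx => h x (by omega), hM v w fun x hx => h x (by omega)]

/-- The graph of a term. -/
theorem Ar.graph (t : Tm) : ∀ (f : ℕ → ℕ) (y : ℕ), Ar (fun v => v y = (t.ren f).eval v) := by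
  induction t with
  | var i => exact fun f y => Ar.eq y (f i)
  | zero => exact fun f y => Ar.zeroRel y
  | succ t ih =>
    intro f y
    refine ((ih (fun i => f i + 1) 0).and (Ar.succRel 0 (y + 1))).exc.congr fun v => ?_
    simp only [Tm.ren, Tm.eval, Tm.eval_ren, consA_zero, consA_succ]
    constructor
    · rintro ⟨a, rfl, h⟩; exact h
    · intro h; exact ⟨_, rfl, h⟩
  | pair s t ihs iht =>
    intro f y
    refine ((ihs (fun i => f i + 1) 0).and (((iht (fun i => f i + 2) 0).and
      (Ar.pairRel 1 0 (y + 2))).exc)).exc.congr fun v => ?_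
    simp only [Tm.ren, Tm.eval, Tm.eval_ren, consA_zero, consA_succ]
    constructor
    · rintro ⟨a, rfl, b, rfl, h⟩; exact h
    · intro h; exact ⟨_, rfl, _, rfl, h⟩

theorem Tm.ren_id (t : Tm) : t.ren (fun i => i) = t := by
  induction t with
  | var i => rfl
  | zero => rfl
  | succ t ih => simp only [Tm.ren, ih]
  | pair s t ihs iht => simp only [Tm.ren, ihs, iht]

theorem Ar.graph' (t : Tm) (y : ℕ) : Ar (fun v => v y = t.eval v) :=
  (Ar.graph t (fun i => i) y).congr fun v => by rw [Tm.ren_id]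

/-- equations between terms -/
theorem Ar.tm (s t : Tm) : Ar (fun v => s.eval v = t.eval v) := by
  refine (((Ar.graph s (fun i => i + 1) 0).and (Ar.graph t (fun i => i + 1) 0)).exc).congr
    fun v => ?_
  simp only [Tm.eval_ren, consA_zero, consA_succ]
  exact ⟨fun ⟨a, h, h'⟩ => h ▸ h', fun h => ⟨_, rfl, h⟩⟩

theorem Ar.subN (N : ℕ) : ∀ {R : (ℕ → ℕ) → Prop}, Ar R → ∀ (f : ℕ → Tm) (g : ℕ → ℕ),
    Ar (fun v => R (fun i => if i < N then (f i).eval v else v (g i))) := by
  induction N with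
  | zero =>
    intro R h f g
    exact (h.ren g).congr fun v => by simp
  | succ N ih =>
    intro R h f g
    refine ((Ar.graph (f N) (fun i => i + 1) 0).and
      (ih h (fun i => (f i).ren (fun i => i + 1))
        (fun i => if i = N then 0 else g i + 1))).exc.congr fun v => ?_
    simp only [Tm.eval_ren, consA_zero, consA_succ]
    constructor
    · rintro ⟨a, rfl, h⟩
      convert h using 1
      funext i
      by_cases hi : i < N
      · simp [hi, Nat.lt_succ_of_lt hi]
      · by_cases hi' : i = N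
        · subst hi'; simp
        · have h1 : ¬ i < N + 1 := by omega
          simp [hi, h1, hi']
    · intro h
      refine ⟨_, rfl, ?_⟩
      convert h using 1
      funext i
      by_cases hi : i < N
      · simp [hi, Nat.lt_succ_of_lt hi]
      · by_cases hi' : i = N
        · subst hi'; simp
        · have h1 : ¬ i < N + 1 := by omega
          simp [hi, h1, hi']

/-- terms may be put for the variables -/
theorem Ar.sub {R : (ℕ → ℕ) → Prop} (h : Ar R) (f : ℕ → Tm) :
    Ar (fun v => R (fun i => (f i).eval v)) := by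
  obtain ⟨N, hN⟩ := h.bdd
  refine (Ar.subN N h f (fun i => i)).congr fun v => hN _ _ fun x hx => ?_
  simp [hx]

/-! ### Sequences -/

theorem Ar.betaRel (s i x : ℕ) : Ar (fun v => Nat.beta (v s) (v i) = v x) := by
  -- `∃ a b c d m q`
  have h : Ar (fun v => ∃ a b m q, v s = Nat.pair a b ∧
      (∃ c d, c = v i + 1 ∧ c * b = d ∧ m = d + 1) ∧ v x < m ∧ ∃ e, m * q = e ∧ e + v x = a) := by
    refine Ar.congr (Ar.exc (Ar.exc (Ar.exc (Ar.exc (((Ar.pairRel 3 2 (s + 4)).and
      ((((Ar.succRel (i + 6) 1).and ((Ar.mulRel 1 4 0).and (Ar.succRel 0 3))).exc.exc))).and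
      ((Ar.lt (x + 4) 1).and
        ((Ar.mulRel 2 1 0).and (Ar.addRel 0 (x + 5) 4)).exc)))))) fun v => ?_
    simp only [consA_zero, consA_succ, and_assoc]
  refine h.congr fun v => ?_
  unfold Nat.beta
  constructor
  · rintro ⟨a, b, m, q, hs, ⟨c, d, hc, hd, hm⟩, hx, e, he, hea⟩
    rw [hs, Nat.unpair_pair]
    have hm' : (v i + 1) * b + 1 = m := by rw [hm, ← hd, hc]
    simp only [hm']
    rw [← hea, ← he, Nat.mul_add_mod, Nat.mod_eq_of_lt hx]
  · intro h
    refine ⟨(v s).unpair.1, (v s).unpair.2, (v i + 1) * (v s).unpair.2 + 1,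
      (v s).unpair.1 / ((v i + 1) * (v s).unpair.2 + 1), (Nat.pair_unpair _).symm,
      ⟨_, _, rfl, rfl, rfl⟩, ?_, _, rfl, ?_⟩
    · rw [← h]; exact Nat.mod_lt _ (Nat.succ_pos _)
    · rw [← h]; exact Nat.div_add_mod _ _

/-- One step of a derivation coded by `s` at the place `j`. -/
def StepAt (r : Rule) (s j : ℕ) : Prop :=
  ∃ ρ : ℕ → ℕ, r.side ρ ∧ Nat.beta s j = r.concl.eval ρ ∧
    ∀ t ∈ r.prems, ∃ k, k < j ∧ Nat.beta s k = t.eval ρ

theorem Ar.stepAt (r : Rule) (hr : Ar r.side) : Ar (fun v => StepAt r (v 0) (v 1)) := by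
  refine Ar.exFun (Q := fun ρ v => r.side ρ ∧ Nat.beta (v 0) (v 1) = r.concl.eval ρ ∧
    ∀ t ∈ r.prems, ∃ k, k < v 1 ∧ Nat.beta (v 0) k = t.eval ρ) ?_
  refine (hr.ren fun i => 2 * i).and (Ar.and ?_ ?_)
  · refine ((Ar.graph r.concl (fun i => 2 * i + 1) 0).and
      (Ar.betaRel 2 4 0)).exc.congr fun v => ?_
    simp only [Tm.eval_ren, consA_zero, consA_succ]
    exact ⟨fun ⟨a, h, h'⟩ => h'.trans h, fun h => ⟨_, rfl, h⟩⟩
  · generalize r.prems = l
    induction l with
    | nil => exact Ar.verum.congr fun v => by simp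
    | cons t l ih =>
      have h1 : Ar (fun w => ∃ k, k < w 3 ∧ Nat.beta (w 1) k = t.eval (fun i => w (2 * i))) := by
        refine (((Ar.lt 0 4).and ((Ar.graph t (fun i => 2 * i + 2) 0).and
          (Ar.betaRel 3 1 0)).exc).exc).congr fun v => ?_
        simp only [Tm.eval_ren, consA_zero, consA_succ]
        refine exists_congr fun k => and_congr Iff.rfl ?_
        exact ⟨fun ⟨a, h, h'⟩ => h'.trans h, fun h => ⟨_, rfl, h⟩⟩
      refine (h1.and ih).congr fun v => ?_
      simp only [List.mem_cons, forall_eq_or_imp]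

/-- The derivable numbers are the numbers with a derivation. -/
theorem derivable_iff (R : List Rule) (n : ℕ) :
    Derivable R n ↔ ∃ s L, Nat.beta s L = n ∧ ∀ j, j ≤ L → ∃ r ∈ R, StepAt r s j := by
  -- derivations as lists
  have key : ∀ n, Derivable R n → ∃ l : List ℕ, n ∈ l ∧ ∀ j (hj : j < l.length),
      ∃ r ∈ R, ∃ ρ : ℕ → ℕ, r.side ρ ∧ l[j] = r.concl.eval ρ ∧
        ∀ t ∈ r.prems, ∃ k, ∃ hk : k < j, l[k] = t.eval ρ := by
    intro n hn
    induction hn with
    | intro r hr ρ hs h ih =>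
      -- a list containing all premises
      have hl : ∃ l : List ℕ, (∀ t ∈ r.prems, t.eval ρ ∈ l) ∧ ∀ j (hj : j < l.length),
          ∃ r ∈ R, ∃ ρ : ℕ → ℕ, r.side ρ ∧ l[j] = r.concl.eval ρ ∧
            ∀ t ∈ r.prems, ∃ k, ∃ hk : k < j, l[k] = t.eval ρ := by
        clear h hs hr
        revert ih
        generalize r.prems = pr
        intro ih
        induction pr with
        | nil => exact ⟨[], by simp, fun j hj => by simp at hj⟩
        | cons t pr ihp =>
          obtain ⟨l1, h1, h1'⟩ := ih t (by simp)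
          obtain ⟨l2, h2, h2'⟩ := ihp fun t' ht' => ih t' (by simp [ht'])
          refine ⟨l1 ++ l2, ?_, ?_⟩
          · intro t' ht'
            rcases List.mem_cons.1 ht' with rfl | ht'
            · exact List.mem_append_left _ h1
            · exact List.mem_append_right _ (h2 t' ht')
          · intro j hj
            by_cases hj1 : j < l1.length
            · obtain ⟨r', hr', ρ', hs', he', hp'⟩ := h1' j hj1
              refine ⟨r', hr', ρ', hs', ?_, fun t' ht' => ?_⟩
              · rw [List.getElem_append_left hj1]; exact he'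
              · obtain ⟨k, hk, e⟩ := hp' t' ht'
                refine ⟨k, hk, ?_⟩
                rw [List.getElem_append_left (by omega)]; exact e
            · have hj2 : j - l1.length < l2.length := by
                rw [List.length_append] at hj; omega
              obtain ⟨r', hr', ρ', hs', he', hp'⟩ := h2' (j - l1.length) hj2
              refine ⟨r', hr', ρ', hs', ?_, fun t' ht' => ?_⟩
              · rw [List.getElem_append_right (by omega)]; exact he'
              · obtain ⟨k, hk, e⟩ := hp' t' ht'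
                refine ⟨k + l1.length, by omega, ?_⟩
                rw [List.getElem_append_right (by omega)]
                simp only [Nat.add_sub_cancel]
                exact e
      obtain ⟨l, hl1, hl2⟩ := hl
      refine ⟨l ++ [r.concl.eval ρ], by simp, fun j hj => ?_⟩
      by_cases hj1 : j < l.length
      · obtain ⟨r', hr', ρ', hs', he', hp'⟩ := hl2 j hj1
        refine ⟨r', hr', ρ', hs', ?_, fun t' ht' => ?_⟩
        · rw [List.getElem_append_left hj1]; exact he'
        · obtain ⟨k, hk, e⟩ := hp' t' ht'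
          refine ⟨k, hk, ?_⟩
          rw [List.getElem_append_left (by omega)]; exact e
      · have hj2 : j = l.length := by
          rw [List.length_append, List.length_singleton] at hj; omega
        subst hj2
        refine ⟨r, hr, ρ, hs, ?_, fun t' ht' => ?_⟩
        · rw [List.getElem_append_right (le_refl _)]; simp
        · obtain ⟨k, hk, e⟩ := List.getElem_of_mem (hl1 t' ht')
          refine ⟨k, hk, ?_⟩
          rw [List.getElem_append_left hk]; exact e
  constructor
  · intro hn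
    obtain ⟨l, hnl, hl⟩ := key n hn
    obtain ⟨L, hL, e⟩ := List.getElem_of_mem hnl
    have hb : ∀ i (hi : i < l.length), Nat.beta (Nat.unbeta l) i = l[i] := fun i hi =>
      Nat.beta_unbeta_coe l ⟨i, hi⟩
    refine ⟨Nat.unbeta l, L, by rw [hb L hL]; exact e, fun j hj => ?_⟩
    obtain ⟨r, hr, ρ, hs, he, hp⟩ := hl j (by omega)
    refine ⟨r, hr, ρ, hs, ?_, fun t ht => ?_⟩
    · rw [hb j (by omega)]; exact he
    · obtain ⟨k, hk, e⟩ := hp t ht
      refine ⟨k, hk, ?_⟩
      rw [hb k (by omega)]; exact e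
  · rintro ⟨s, L, rfl, h⟩
    have : ∀ j, j ≤ L → Derivable R (Nat.beta s j) := by
      intro j
      induction j using Nat.strong_induction_on with
      | _ j ih =>
        intro hj
        obtain ⟨r, hr, ρ, hs, he, hp⟩ := h j hj
        rw [he]
        refine Derivable.intro r hr ρ hs fun t ht => ?_
        obtain ⟨k, hk, e⟩ := hp t ht
        rw [← e]
        exact ih k hk (by omega)
    exact this L (le_refl _)

/-- what can be derived by finitely many rules with arithmetical side conditions is arithmetical -/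
theorem Ar.derivable (R : List Rule) (hR : ∀ r ∈ R, Ar r.side) :
    Ar (fun v => Derivable R (v 0)) := by
  have h1 : Ar (fun v => ∃ r ∈ R, StepAt r (v 0) (v 1)) := by
    revert hR
    induction R with
    | nil => intro _; exact Ar.falso.congr fun v => by simp
    | cons r R ih =>
      intro hR
      refine ((Ar.stepAt r (hR r (by simp))).or (ih fun r' hr' => hR r' (by simp [hr']))).congr
        fun v => ?_
      simp only [List.mem_cons, exists_eq_or_imp]
  -- the variables: `j`, `L`, `s`, `n`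
  have h2 : Ar (fun v => ∃ s L, Nat.beta s L = v 0 ∧
      ∀ j, j ≤ L → ∃ r ∈ R, StepAt r s j) := by
    refine Ar.congr (Ar.exc (Ar.exc ((Ar.betaRel 1 0 2).and
      (((Ar.le 0 1).imp (h1.ren (fun i => if i = 0 then 2 else 0))).allc)))) fun v => ?_
    rfl
  exact h2.congr fun v => (derivable_iff R (v 0)).symm

/-- a version with prescribed free variables -/
theorem Ar.rep4 (R : ℕ → ℕ → ℕ → ℕ → Prop) (h : Ar (fun v => R (v 0) (v 1) (v 2) (v 3))) (s : ℕ) :
    ∃ φ : Form, (∀ x, φ.Free x → s ≤ x ∧ x < s + 4) ∧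
      ∀ v, φ.Holds v ↔ R (v s) (v (s + 1)) (v (s + 2)) (v (s + 3)) := by
  obtain ⟨φ, hφ⟩ := h
  obtain ⟨φ', h1, h2⟩ := ArAux.exists_ren φ (fun i => if i < 4 then s + i else s)
  refine ⟨φ', fun x hx => ?_, fun v => ?_⟩
  · obtain ⟨u, -, e⟩ := h2 x hx
    by_cases hu : u < 4
    · simp only [hu, if_true] at e; omega
    · simp only [hu, if_false] at e; omega
  · exact (h1 v).trans (hφ _)

end Pool.Agent.TH672
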