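import Pool.Agent.W920.NL.Law1
import Pool.Agent.W920.NL.LawAdv
import Pool.Agent.W920.NL.LawAM2

/-!
# Nondeterministic predictors below the threshold

A deterministic predictor with `O (log n)` questions to an arbitrary oracle is a nondeterministic
predictor with `O (log n)` bits of information about the list; it is also a predictor with advice and
a predictor with public coins.
-/

set_option autoImplicit false

namespace Pool.Agent.TH39.NPred

open Pool.Agent.NPC Pool.Agent.H251R5.PQ Pool.Agent.W901.AT Pool.Agent.W920.NL
open Pool.Agent.W920.LN (Outputs NPredictable NFullyPredictable)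

/-- A deterministic predictor is a nondeterministic predictor. -/
theorem nfully_of_fully {δ : ℝ} {A : Set (List Bool)} (h : FullyPredictable δ A) :
    NFullyPredictable δ A := by
  obtain ⟨X, q, g, b, hq, hg, hX⟩ := h
  have hgp : NPC.Poly g := poly_of_bits' hg
  have hg' : NPC.Poly (fun y : List Bool => some (g (unpair y).1)) :=
    NPC.Poly.some (hgp.comp (NPC.Poly.fst poly_unpair))
  refine ⟨fun y => some (g (unpair y).1), 0,
    fun qs => adaptive X q (bits qs) (b * (Nat.log 2 (bits qs).length + 1)), b,
    polyTime_bits hg', fun z => ⟨g z, [], by simp, ?_⟩, fun qs => enu_adaptive _ _ _ _, ?_⟩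
  · simp only [unpair_pairBits]
  · rintro qs hqs h ⟨w, -, hw⟩
    simp only [unpair_pairBits, Option.some.injEq] at hw
    rw [← hw]
    exact hX qs hqs

/-- the algorithm which ignores the second part of its first argument -/
def forget (g : List Bool → Option (List (Option Bool))) (y : List Bool) :
    Option (List (Option Bool)) :=
  g (pairBits (unpair (unpair y).1).1 (unpair y).2)

theorem forget_poly {g : List Bool → Option (List (Option Bool))} (hg : NPC.Poly g) :
    NPC.Poly (forget g) :=
  hg.comp (H622R2.poly_pairBits (NPC.Poly.fst (poly_unpair.comp (NPC.Poly.fst poly_unpair)))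
    (NPC.Poly.snd poly_unpair))

theorem forget_pair (g : List Bool → Option (List (Option Bool))) (z r w : List Bool) :
    forget g (pairBits (pairBits z r) w) = g (pairBits z w) := by
  unfold forget
  rw [unpair_pairBits]
  simp only
  rw [unpair_pairBits]

/-- A nondeterministic predictor is one with empty advice. -/
theorem advfully_of_nfully {δ : ℝ} {A : Set (List Bool)} (h : NFullyPredictable δ A) :
    AdvFullyPredictable δ A := by
  obtain ⟨g, p, u, b, hg, hT, hu, hX⟩ := h
  have hgp : NPC.Poly g := poly_of_bits' hg
  refine ⟨forget g, fun _ => [], p, 0, u, b, polyTime_bits (forget_poly hgp), fun n => by simp,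
    fun z => ?_, hu, ?_⟩
  · obtain ⟨h, w, hw1, hw2⟩ := hT z
    exact ⟨h, w, hw1, by rw [forget_pair]; exact hw2⟩
  · rintro qs hqs h ⟨w, hw1, hw2⟩
    rw [forget_pair] at hw2
    exact hX qs hqs h ⟨w, hw1, hw2⟩

/-- A nondeterministic predictor is one with public coins, without coins. -/
theorem amfully_of_nfully {δ : ℝ} {A : Set (List Bool)} (h : NFullyPredictable δ A) :
    AMFullyPredictable δ A := by
  obtain ⟨g, p, u, b, hg, hT, hu, hX⟩ := h
  have hgp : NPC.Poly g := poly_of_bits' hg
  refine ⟨forget g, 0, p, u, b, polyTime_bits (forget_poly hgp), fun z r _ => ?_, hu, ?_⟩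
  · obtain ⟨h, w, hw1, hw2⟩ := hT z
    exact ⟨h, w, hw1, by rw [forget_pair]; exact hw2⟩
  · intro qs hqs
    have he : {r : List Bool |
        r.length = (0 : Polynomial ℕ).eval (pairBits (bits qs) (u qs)).length ∧
        ∃ h, AMOutputs (forget g) p (pairBits (bits qs) (u qs)) r h ∧
          ¬ (Beats δ A qs h ∧ ∀ a ∈ h, a ≠ none)} = ∅ := by
      rw [Set.eq_empty_iff_forall_notMem]
      rintro r ⟨-, h, ⟨w, hw1, hw2⟩, hn⟩
      rw [forget_pair] at hw2
      exact hn (hX qs hqs h ⟨w, hw1, hw2⟩)
    rw [he, Set.ncard_empty]
    exact Nat.zero_le _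

end Pool.Agent.TH39.NPred
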